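import Pool.Agent.J4H99.RST.Fin

/-!
# Random spanning tree temporal graphs with snapshots of maximum degree `d` are explored in time
`O(d n log n log log n)`
-/

namespace Pool.Agent.Results.MP_062a2b_pr.NearLinear

open scoped BigOperators Classical

/-- `Explores s ω`: in the temporal graph with snapshots `ω 0, …, ω (T-1)` there is a temporal
walk of length `T` (at each step wait or cross an edge of the current snapshot) which starts at
`s` and visits all vertices; that is, the exploration time from `s` is at most `T`. -/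
def Explores {n T : ℕ} (s : Fin n) (ω : Fin T → SimpleGraph (Fin n)) : Prop :=
  ∃ v : Fin (T + 1) → Fin n, v 0 = s ∧
    (∀ i : Fin T, v i.succ = v i.castSucc ∨ (ω i).Adj (v i.castSucc) (v i.succ)) ∧
    Function.Surjective v

/-- Let `n ≥ 16`, `d ≥ 1`, and let `μ` be a probability distribution on graphs on `n` vertices,
supported on trees (connected graphs suffice) of maximum degree at most `d`. If the snapshots are
independent of law `μ`, then for every start vertex `s` and all
`T ≥ 300 · d · n · log n · log log n` the exploration time from `s` is at most `T` with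
probability at least `1 - 1/n`. -/
theorem result :
    ∀ n d T : ℕ, 16 ≤ n → 1 ≤ d → ∀ μ : SimpleGraph (Fin n) → ℝ,
      (∀ G, 0 ≤ μ G) → ∑ G, μ G = 1 →
      (∀ G, μ G ≠ 0 → G.Connected ∧ ∀ v, (G.neighborSet v).ncard ≤ d) →
      ∀ s : Fin n, 300 * d * n * Real.log n * Real.log (Real.log n) ≤ T →
        1 - 1 / (n : ℝ) ≤ ∑ ω : Fin T → SimpleGraph (Fin n),
          (∏ i, μ (ω i)) * (if Explores s ω then 1 else 0) := by
  intro n d T hn hd μ h0 h1 hμ s hT
  haveI : Nonempty (Fin n) := ⟨s⟩
  have hcard : Fintype.card (Fin n) = n := Fintype.card_fin n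
  have hc : ∀ G, μ G ≠ 0 → G.Connected := fun G hG => (hμ G hG).1
  have hdd : ∀ G, μ G ≠ 0 → Pool.Agent.J4H99.RST.DegLe G d := fun G hG =>
    Pool.Agent.J4H99.RST.deg_conv (hμ G hG).2
  have hfail := Pool.Agent.J4H99.RST.main_fail h0 h1 hc hd hdd (by rw [hcard]; omega) s T
    (by rw [hcard]; exact Pool.Agent.J4H99.RST.numeric hn hd hT)
  rw [hcard] at hfail
  have hpos : Pool.Agent.J4H99.RST.Ex μ T (fun ω => Pool.Agent.J4H99.RST.ind
      (∃ A', Finset.univ ⊆ A' ∧ Pool.Agent.J4H99.RST.TW ω s s A')) ≥ 1 - 1 / (n : ℝ) := by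
    unfold Pool.Agent.J4H99.RST.fail at hfail
    simp only [Pool.Agent.J4H99.RST.ind_not] at hfail
    rw [Pool.Agent.J4H99.RST.Ex_sub, Pool.Agent.J4H99.RST.Ex_const h1] at hfail
    linarith
  rw [← Pool.Agent.J4H99.RST.sum_eq_Ex] at hpos
  refine le_trans hpos (Finset.sum_le_sum fun ω _ => ?_)
  refine mul_le_mul_of_nonneg_left ?_ (Finset.prod_nonneg fun i _ => h0 _)
  by_cases h : ∃ A', Finset.univ ⊆ A' ∧ Pool.Agent.J4H99.RST.TW (List.ofFn ω) s s A'
  · obtain ⟨A', hA', hTW⟩ := h
    obtain ⟨v, hv0, hv1, hv2⟩ := Pool.Agent.J4H99.RST.TW_fun T ω s s A' hTW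
    have hex : Explores s ω := ⟨v, hv0, hv1, fun a => hv2 a (hA' (Finset.mem_univ a))⟩
    rw [if_pos hex]
    exact Pool.Agent.J4H99.RST.ind_le_one _
  · rw [Pool.Agent.J4H99.RST.ind_false h]
    split_ifs <;> norm_num

end Pool.Agent.Results.MP_062a2b_pr.NearLinear
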